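import Pool.Agent.R542.CayFinal

/-!
# Chromatic numbers of Cayley graphs of powers of a fixed group

For every finite group `G` with at least two elements it is `NP`-hard to decide, for a Cayley graph
of a direct power `G ^ n` (given by its adjacency matrix) and a number `k`, whether the graph has a
proper colouring with `k` colours. In particular this holds for `G = ℤ / 2`, the cubelike graphs.

Proof idea. Let `r` be a prime divisor of the order of `G`; it suffices to work in
`A × V × B`, `A = F_r ^ a`, `V = F_r ^ 2`, `B = F_r ^ b`, inside of `G ^ n`. The given graph, which
has to be coloured with the elements of `V`, has its vertices labelled by the elements of `B`;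
greedily choose vectors `x_p` in `A`, any six of which are linearly independent. All nonzero
differences `(y, v, m)` are in the connection set except those with `m ≠ 0` and `y = x_q - x_p` for
some `p ≠ q`, and `v ≠ 0` if `p`, `q` are adjacent. A proper colouring `u` of the given graph gives the
independent set of all `(x_p, u_p, p)`, and its translates by `A × V` are a partition into
`|A × V|` independent sets. Conversely if there are `|A × V|` colours then a colour class has at
least `|B|` elements; the first components form a set of `|B|` vectors all of whose differences are
differences of two of the `x_p`, and by the independence this set is a translate of all the `x_p`, or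
of all the `- x_p`, so that the second components are a proper colouring of the given graph.
-/

set_option autoImplicit false

namespace Pool.Agent.Results.MP_ba7db8_lc.CayleyPowersHard

open Pool.Agent.H692R2 Pool.Agent.H673R2 Pool.Agent.NPC.R542.Cay

theorem result (G : Type) [Group G] [Fintype G] (hG : 2 ≤ Fintype.card G) :
    NPHardOn (fun I : FinGraph × ℕ => IsCayleyPower G I.1)
      (fun I => I.1.graph.Colorable I.2) :=
  final G hG

end Pool.Agent.Results.MP_ba7db8_lc.CayleyPowersHard
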